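import Pool.Agent.Lib.MP_fb3619_al.Iface

/-! # EQV: equivariance, polarity, invariance of `sim` -/

universe u

namespace Pool.Agent.FourGp.H21

open Equiv

variable {P : Type u} {g : Inc P}

/-- The collineation with points and lines exchanged. -/
theorem col_swap (h : g.IsGeo) {φ : Perm P × Perm P} (hφ : g.Col φ) : g.Col (φ.2, φ.1) :=
  ⟨hφ.tl, hφ.tp, fun x y => by
    rw [h.perp_comm, hφ.inc y x, h.perp_comm]⟩

theorem adm_col (h : g.IsGeo) {γ : Perm P × Perm P} (hγ : g.Col γ) {v x w₁ w₂ n m : P}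
    (ha : g.Adm v x w₁ w₂ n m) : g.Adm (γ.1 v) (γ.2 x) (γ.1 w₁) (γ.1 w₂) (γ.2 n) (γ.2 m) where
  vx := (hγ.inc _ _).1 ha.vx
  xw₁ := h.perp_symm _ _ ((hγ.inc _ _).1 (h.perp_symm _ _ ha.xw₁))
  xw₂ := h.perp_symm _ _ ((hγ.inc _ _).1 (h.perp_symm _ _ ha.xw₂))
  vn := (hγ.inc _ _).1 ha.vn
  vm := (hγ.inc _ _).1 ha.vm
  sw₁ := fun e => ha.sw₁ ((h.col_st hγ).1 e)
  sw₂ := fun e => ha.sw₂ ((h.col_st hγ).1 e)
  sn := fun e => ha.sn ((h.col_st' hγ).1 e)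
  sm := fun e => ha.sm ((h.col_st' hγ).1 e)

/-- Types of the data of an f-map. -/
theorem adm_types (h : g.IsGeo) {v x w₁ w₂ n m y : P} (ha : g.Adm v x w₁ w₂ n m)
    (hy : g.st y x) : ¬ g.st w₁ y ∧ g.st m w₁ ∧ ¬ g.st w₂ (g.pr w₁ m y) ∧ g.st n w₂ := by
  obtain ⟨t, ht, hs⟩ := h.label
  have i1 := h.perp_st _ _ ha.vx
  have i2 := h.perp_st _ _ ha.xw₁
  have i3 := h.perp_st _ _ ha.xw₂
  have i4 := h.perp_st _ _ ha.vn
  have i5 := h.perp_st _ _ ha.vm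
  have i6 := ha.sw₁
  have i7 := ha.sw₂
  have i8 := ha.sn
  have i9 := ha.sm
  have t1 := ht v; have t2 := ht x; have t3 := ht w₁; have t4 := ht w₂; have t5 := ht n
  have t6 := ht m
  have e1 : ¬ g.st w₁ y := by rw [hs] at *; omega
  have e2 : g.st m w₁ := by rw [hs] at *; omega
  have e3 := h.pr_st e1 e2
  have e4 : ¬ g.st w₂ (g.pr w₁ m y) := by rw [hs] at *; omega
  have e5 : g.st n w₂ := by rw [hs] at *; omega
  exact ⟨e1, e2, e4, e5⟩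

theorem tt_conj (h : g.IsGeo) {γ φ : Perm P × Perm P} (hγ : g.Col γ) {v x : P}
    (hφ : g.TT v x φ) : g.TT (γ.1 v) (γ.2 x) (γ * φ * γ⁻¹) := by
  refine ⟨h.col_mul (h.col_mul hγ hφ.toCol) (h.col_inv hγ), fun y hy => ?_, fun l hl => ?_⟩
  · change γ.1 (φ.1 (γ.1⁻¹ y)) = y
    have e : γ.1 (γ.1⁻¹ y) = y := γ.1.apply_symm_apply y
    have h1 : g.perp x (γ.1⁻¹ y) := by
      refine h.perp_symm _ _ ((hγ.inc _ _).2 ?_)
      rw [e]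
      exact h.perp_symm _ _ hy
    rw [hφ.pts _ h1, e]
  · change γ.2 (φ.2 (γ.2⁻¹ l)) = l
    have e : γ.2 (γ.2⁻¹ l) = l := γ.2.apply_symm_apply l
    have h1 : g.perp v (γ.2⁻¹ l) := by
      refine (hγ.inc _ _).2 ?_
      rw [e]
      exact hl
    rw [hφ.lns _ h1, e]

theorem fm_col (h : g.IsGeo) {γ : Perm P × Perm P} (hγ : g.Col γ) {v x w₁ w₂ n m y : P}
    (ha : g.Adm v x w₁ w₂ n m) (hy : g.st y x) :
    γ.1 (g.fm w₁ w₂ n m y) = g.fm (γ.1 w₁) (γ.1 w₂) (γ.2 n) (γ.2 m) (γ.1 y) := by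
  obtain ⟨e1, e2, e4, e5⟩ := adm_types h ha hy
  unfold Inc.fm
  rw [h.col_pr hγ e4 e5, h.col_pr hγ e1 e2]

theorem ind_conj (h : g.IsGeo) {γ φ : Perm P × Perm P} (hγ : g.Col γ) {v x w₁ w₂ n m : P}
    (hi : g.Ind v x w₁ w₂ n m φ) :
    g.Ind (γ.1 v) (γ.2 x) (γ.1 w₁) (γ.1 w₂) (γ.2 n) (γ.2 m) (γ * φ * γ⁻¹) := by
  obtain ⟨ha, ht, hf⟩ := hi
  refine ⟨adm_col h hγ ha, tt_conj h hγ ht, fun y hy hn => ?_⟩
  have e : γ.1 (γ.1⁻¹ y) = y := γ.1.apply_symm_apply y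
  have h1 : g.st (γ.1⁻¹ y) x := by
    have h2 := hγ.tp (γ.1⁻¹ y)
    rw [e] at h2
    exact h.st_trans _ _ _ (h.st_trans _ _ _ h2 hy) (h.st_symm _ _ (hγ.tl x))
  have h3 : g.perp (γ.1⁻¹ y) n := by
    refine (hγ.inc _ _).2 ?_
    rw [e]
    exact hn
  change γ.1 (φ.1 (γ.1⁻¹ y)) = _
  rw [hf _ h1 h3, fm_col h hγ ha h1, e]

theorem ind_swap (h : g.IsGeo) {φ : Perm P × Perm P} {v x w₁ w₂ n m : P}
    (hi : g.Ind v x w₁ w₂ n m φ) : g.Ind x v m n w₁ w₂ (φ.2, φ.1) := by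
  obtain ⟨ha, htt, hf⟩ := hi
  refine ⟨⟨h.perp_symm _ _ ha.vx, ha.vm, ha.vn, ha.xw₁, ha.xw₂, ha.sm, ha.sn, ha.sw₁, ha.sw₂⟩,
    ⟨col_swap h htt.toCol, htt.lns, htt.pts⟩, fun l hl hw => ?_⟩
  obtain ⟨t, ht, hs⟩ := h.label
  have i1 := h.perp_st _ _ ha.vx
  have i2 := h.perp_st _ _ ha.xw₁
  have i4 := h.perp_st _ _ ha.vn
  have i6 := ha.sw₁
  have i8 := ha.sn
  have t1 := ht v; have t2 := ht x; have t3 := ht w₁; have t5 := ht n; have t6 := ht l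
  have e1 : ¬ g.st l n := by rw [hs] at *; omega
  have c1 := h.cr_st_l e1
  have c2 := h.cr_st_r e1
  have t7 := ht (g.cr l n)
  have e2 : g.st (g.cr l n) x := by rw [hs] at *; omega
  have e3 : g.perp (g.cr l n) n := h.perp_symm _ _ (h.cr_r _ _ e1)
  have e4 : ¬ g.st (g.cr l n) w₁ := by rw [hs] at *; omega
  have e5 : l = g.cr (g.cr l n) w₁ :=
    h.uniq _ _ _ e4 (h.perp_symm _ _ (h.cr_l _ _ e1)) (h.perp_symm _ _ hw)
  have e6 := hf _ e2 e3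
  have e7 : φ.2 l = g.cr (φ.1 (g.cr l n)) w₁ := by
    conv_lhs => rw [e5]
    rw [h.col_cr htt.toCol e4, htt.pts _ ha.xw₁]
  change φ.2 l = _
  rw [e7, e6]
  unfold Inc.fm Inc.pr
  rw [← e5]

theorem R1_col (h : g.IsGeo) {γ : Perm P × Perm P} (hγ : g.Col γ) {x y : P} (e : g.R1 x y) :
    g.R1 (γ.1 x) (γ.1 y) := by
  obtain ⟨n, l, l', z, h1, h2, h3, h4, h5, h6, h7, h8, h9⟩ := e
  have hp : ∀ {l x : P}, g.perp l x → g.perp (γ.2 l) (γ.1 x) := fun hp =>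
    h.perp_symm _ _ ((hγ.inc _ _).1 (h.perp_symm _ _ hp))
  exact ⟨γ.2 n, γ.2 l, γ.2 l', γ.1 z, hp h1, hp h2, (h.col_st hγ).2 h3, hp h4, hp h5, hp h6, hp h7,
    (h.col_st' hγ).2 h8, fun e => h9 ((h.col_st' hγ).1 e)⟩

theorem sim_col (h : g.IsGeo) {γ : Perm P × Perm P} (hγ : g.Col γ) {x y : P} (e : g.sim x y) :
    g.sim (γ.1 x) (γ.1 y) := by
  induction e with
  | rel _ _ e => exact Relation.EqvGen.rel _ _ (R1_col h hγ e)
  | refl _ => exact Relation.EqvGen.refl _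
  | symm _ _ _ ih => exact Relation.EqvGen.symm _ _ ih
  | trans _ _ _ _ _ ih1 ih2 => exact Relation.EqvGen.trans _ _ _ ih1 ih2

theorem eqv : EqvS.{u} := by
  intro P g h
  refine ⟨?_, ?_, ?_⟩
  · intro γ hγ v x φ hφ
    refine Subgroup.closure_induction
      (p := fun φ _ => γ * φ * γ⁻¹ ∈ g.Nn (γ.1 v) (γ.2 x)) ?_ ?_ ?_ ?_ hφ
    · rintro φ ⟨w₁, w₂, n, m, hi⟩
      exact Subgroup.subset_closure ⟨_, _, _, _, ind_conj h hγ hi⟩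
    · rw [mul_one, mul_inv_cancel]
      exact Subgroup.one_mem _
    · intro φ ψ _ _ a b
      have e : γ * (φ * ψ) * γ⁻¹ = (γ * φ * γ⁻¹) * (γ * ψ * γ⁻¹) := by group
      rw [e]
      exact Subgroup.mul_mem _ a b
    · intro φ _ a
      have e : γ * φ⁻¹ * γ⁻¹ = (γ * φ * γ⁻¹)⁻¹ := by group
      rw [e]
      exact Subgroup.inv_mem _ a
  · intro v x φ hφ
    refine Subgroup.closure_induction (p := fun φ _ => (φ.2, φ.1) ∈ g.Nn x v) ?_ ?_ ?_ ?_ hφ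
    · rintro φ ⟨w₁, w₂, n, m, hi⟩
      exact Subgroup.subset_closure ⟨_, _, _, _, ind_swap h hi⟩
    · exact Subgroup.one_mem _
    · intro φ ψ _ _ a b
      exact Subgroup.mul_mem _ a b
    · intro φ _ a
      exact Subgroup.inv_mem _ a
  · intro γ hγ x y e
    exact ⟨sim_col h hγ e, sim_col h (col_swap h hγ) e⟩

end Pool.Agent.FourGp.H21
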