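import Pool.Agent.Lib.MP_fb3619_al.Iface

/-! # PROJ (3.8): `sim` and perspectivities -/

universe u

namespace Pool.Agent.FourGp.H21

open Equiv

theorem proj (h1 : SimnS.{u}) (h2 : GensS.{u}) : ProjS.{u} := by
  intro P g h hL
  refine ⟨?_, ?_⟩
  · intro w n y y' hs hwy hnw
    obtain ⟨t, ht, hst⟩ := h.label
    have t1 := ht w; have t2 := ht n; have t3 := ht y
    have e1 : ¬ g.st n y := by rw [hst] at *; omega
    have c1 := h.cr_st_l e1
    have c2 := h.cr_st_r e1
    set v := g.cr n y with hv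
    have t4 := ht v
    have e2 : ¬ g.st v w := by rw [hst] at *; omega
    have c3 := h.cr_st_l e2
    have c4 := h.cr_st_r e2
    set x := g.cr v w with hx
    have t5 := ht x
    have e3 : g.st y x := by rw [hst] at *; omega
    have pvx : g.perp v x := h.cr_l _ _ e2
    have pwx : g.perp w x := h.cr_r _ _ e2
    have pvn : g.perp v n := h.perp_symm _ _ (h.cr_l _ _ e1)
    obtain ⟨φ, hφ, ψ, hψ, hy'⟩ := h1 P g h hL v w x y y' pvx pwx e2 e3 hs
    have hφT := h.nn_tt hφ
    have hψT := h.nn_tt hψ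
    have hφy : g.st y (φ.1 y) := hφT.tp y
    have e4 : ¬ g.st (φ.1 y) w := fun e => hwy (h.st_symm _ _ (h.st_trans _ _ _ hφy e))
    have e5 : ¬ g.st y w := fun e => hwy (h.st_symm _ _ e)
    have hφw : φ.1 w = w := hφT.pts w (h.perp_symm _ _ pwx)
    have hψw : ψ.1 w = w := hψT.pts w (h.perp_symm _ _ pwx)
    have k1 : g.cr y' w = g.cr (φ.1 y) w := by
      have k2 := h.col_cr hψT.toCol e4
      rw [hψw, hy', hψT.lns _ (h.cr_r _ _ e4)] at k2
      exact k2.symm
    have k3 : φ.1 (g.pr w n y) = g.pr w n y' := by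
      rw [h.col_pr hφT.toCol hwy hnw, hφw, hφT.lns n pvn]
      unfold Inc.pr
      rw [k1]
    rw [← k3]
    exact h2 P g h v x φ hφ _ (h.st_trans _ _ _ (h.pr_st hwy hnw) e3)
  · intro v w w' x n y pvx pxw pxw' hww' hvw pvn hnw hyx
    obtain ⟨t, ht, hst⟩ := h.label
    have i1 := h.perp_st _ _ pvx
    have i2 := h.perp_st _ _ pxw
    have i3 := h.perp_st _ _ pxw'
    have i4 := h.perp_st _ _ pvn
    have t1 := ht v; have t2 := ht w; have t3 := ht w'; have t4 := ht x; have t5 := ht n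
    have t6 := ht y
    have e1 : ¬ g.st y v := by rw [hst] at *; omega
    have c1 := h.cr_st_l e1
    have c2 := h.cr_st_r e1
    have t7 := ht (g.cr y v)
    have e2 : ¬ g.st w y := by rw [hst] at *; omega
    have e3 : g.st (g.cr y v) w := by rw [hst] at *; omega
    have e4 : ¬ g.st (g.cr y v) x := by rw [hst] at *; omega
    have e5 : ¬ g.st n x := by rw [hst] at *; omega
    have e6 : ¬ g.st w v := by rw [hst] at *; omega
    have e7 : ¬ g.st w' v := by rw [hst] at *; omega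
    have ha : g.Adm v x w w' n (g.cr y v) :=
      ⟨pvx, pxw, pxw', pvn, h.cr_r _ _ e1, e6, e7, e5, e4⟩
    have k1 : g.pr w (g.cr y v) (g.pr w n y) = y := by
      rw [h.pr_pr e2 hnw]
      exact h.pr_self e2 e3 (h.cr_l _ _ e1)
    have k2 := h.fm_R1 ha (h.st_trans _ _ _ (h.pr_st e2 hnw) hyx) (h.pr_perp e2 hnw)
    unfold Inc.fm at k2
    rw [k1] at k2
    exact Relation.EqvGen.rel _ _ k2

end Pool.Agent.FourGp.H21
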